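import Pool.Agent.H89.RC7

set_option autoImplicit false

namespace Pool.Agent.Results.MP_64e6b8_an.RealIndex

universe u v

/-- Numerical radius of an operator on a real normed space. -/
noncomputable def numRadius {X : Type*} [NormedAddCommGroup X] [NormedSpace ℝ X]
    (T : X →L[ℝ] X) : ℝ :=
  sSup {r | ∃ (x : X) (f : StrongDual ℝ X), ‖x‖ = 1 ∧ ‖f‖ = 1 ∧ f x = 1 ∧ r = |f (T x)|}

/-- Numerical index of a real normed space. -/
noncomputable def numIndex (X : Type*) [NormedAddCommGroup X] [NormedSpace ℝ X] : ℝ :=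
  sInf {r | ∃ T : X →L[ℝ] X, ‖T‖ = 1 ∧ r = numRadius T}

open H89.RC

section
variable {X : Type*} [NormedAddCommGroup X] [NormedSpace ℝ X]

theorem rad_nonneg (T : X →L[ℝ] X) : 0 ≤ numRadius T :=
  Real.sSup_nonneg (by rintro _ ⟨x, f, -, -, -, rfl⟩; exact abs_nonneg _)

theorem idx_zero (h : Zr X) : numIndex X = 0 := by
  obtain ⟨T, h0, h⟩ := h
  have hp : 0 < ‖T‖ := norm_pos_iff.2 h0
  refine le_antisymm (csInf_le ⟨0, by rintro _ ⟨S, -, rfl⟩; exact rad_nonneg S⟩
    ⟨‖T‖⁻¹ • T, by rw [norm_smul]; simp [hp.ne'], ?_⟩)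
    (Real.sInf_nonneg (by rintro _ ⟨S, -, rfl⟩; exact rad_nonneg S))
  refine le_antisymm (rad_nonneg _) (Real.sSup_nonpos ?_)
  rintro _ ⟨x, f, h1, h2, h3, rfl⟩
  simp [h x f h1 h2 h3]

theorem idx_one [Nontrivial X] (h : On X) : numIndex X = 1 := by
  have key : ∀ T : X →L[ℝ] X, ‖T‖ = 1 → numRadius T = 1 := by
    intro T hT
    have ub : ∀ r ∈ {r | ∃ (x : X) (f : StrongDual ℝ X),
        ‖x‖ = 1 ∧ ‖f‖ = 1 ∧ f x = 1 ∧ r = |f (T x)|}, r ≤ 1 := by
      rintro _ ⟨x, f, h1, h2, -, rfl⟩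
      have a1 := f.le_opNorm (T x)
      have a2 := T.le_opNorm x
      rw [h2, one_mul, Real.norm_eq_abs] at a1
      rw [hT, h1, one_mul] at a2
      exact a1.trans a2
    refine le_antisymm (Real.sSup_le ub zero_le_one) (le_of_forall_pos_le_add fun ε hε => ?_)
    obtain ⟨x, f, h1, h2, h3, h4⟩ := h T ε hε
    have := le_csSup ⟨1, ub⟩ ⟨x, f, h1, h2, h3, rfl⟩
    unfold numRadius
    linarith
  have : {r | ∃ T : X →L[ℝ] X, ‖T‖ = 1 ∧ r = numRadius T} = {1} := by
    ext r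
    constructor
    · rintro ⟨T, hT, rfl⟩; exact key T hT
    · rintro rfl
      exact ⟨ContinuousLinearMap.id ℝ X, ContinuousLinearMap.norm_id,
        (key _ ContinuousLinearMap.norm_id).symm⟩
  rw [numIndex, this, csInf_singleton]
end

section
variable {B : Type*} [NonUnitalCStarAlgebra B] (A : NonUnitalStarSubalgebra ℝ B)

def up : NonUnitalStarSubalgebra ℝ (Unitization ℂ B) where
  carrier := (fun a : B => (a : Unitization ℂ B)) '' (A : Set B)
  add_mem' := by rintro _ _ ⟨a, ha, rfl⟩ ⟨b, hb, rfl⟩; exact ⟨a + b, add_mem ha hb, by simp⟩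
  zero_mem' := ⟨0, zero_mem A, by simp⟩
  mul_mem' := by rintro _ _ ⟨a, ha, rfl⟩ ⟨b, hb, rfl⟩; exact ⟨a * b, mul_mem ha hb, by simp⟩
  smul_mem' := by rintro c _ ⟨a, ha, rfl⟩; exact ⟨c • a, SMulMemClass.smul_mem c ha, by simp⟩
  star_mem' := by rintro _ ⟨a, ha, rfl⟩; exact ⟨star a, star_mem ha, by simp⟩

noncomputable def upLi : A →ₗᵢ[ℝ] up A where
  toFun a := ⟨((a : B) : Unitization ℂ B), a, a.2, rfl⟩
  map_add' a b := Subtype.ext (by simp)
  map_smul' c a := Subtype.ext (by simp)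
  norm_map' a := Unitization.norm_inr (𝕜 := ℂ) (a : B)

noncomputable def upEq : A ≃ₗᵢ[ℝ] up A :=
  LinearIsometryEquiv.ofSurjective (upLi A) (by rintro ⟨_, a, ha, rfl⟩; exact ⟨⟨a, ha⟩, rfl⟩)
end

theorem result (B : Type u) [NonUnitalCStarAlgebra B] (A : NonUnitalStarSubalgebra ℝ B)
    (hA : IsClosed (A : Set B)) (hne : ∃ a ∈ A, a ≠ 0) :
    ((∀ a ∈ A, star a = a) → numIndex A = 1 ∧
      ∀ (X : Type v) [NormedAddCommGroup X] [NormedSpace ℝ X] [CompleteSpace X],
        Nonempty (A ≃ₗᵢ[ℝ] StrongDual ℝ X) → numIndex X = 1) ∧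
    ((∃ a ∈ A, star a ≠ a) → numIndex A = 0 ∧
      ∀ (X : Type v) [NormedAddCommGroup X] [NormedSpace ℝ X] [CompleteSpace X],
        Nonempty (A ≃ₗᵢ[ℝ] StrongDual ℝ X) → numIndex X = 0) := by
  obtain ⟨a0, h0, h1⟩ := hne
  have nt : Nontrivial A := ⟨⟨⟨a0, h0⟩, 0, fun h => h1 (congrArg Subtype.val h)⟩⟩
  constructor
  · intro hc
    have nt' : Nontrivial (up A) := (upEq A).injective.nontrivial
    have ho : On A := (on_self (A := up A) (by
      rintro _ ⟨a, ha, rfl⟩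
      rw [← Unitization.inr_star, hc a ha])).map (upEq A).symm
    refine ⟨idx_one ho, ?_⟩
    rintro X _ _ _ ⟨φ⟩
    have nd : Nontrivial (StrongDual ℝ X) := φ.injective.nontrivial
    have : Nontrivial X := by
      by_contra hX
      rw [not_nontrivial_iff_subsingleton] at hX
      obtain ⟨f, g, hfg⟩ := nd
      exact hfg (ContinuousLinearMap.ext fun x => by rw [Subsingleton.elim x 0]; simp)
    exact idx_one (ho.map φ).of_dual
  · rintro ⟨a, ha, hs⟩
    have k1 : ((a - star a : B) : Unitization ℂ B) ∈ up A := ⟨_, sub_mem ha (star_mem ha), rfl⟩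
    have k2 : star ((a - star a : B) : Unitization ℂ B) = -((a - star a : B) : Unitization ℂ B) := by
      rw [← Unitization.inr_star, ← Unitization.inr_neg]; simp
    have k3 : ((a - star a : B) : Unitization ℂ B) ≠ 0 := fun h =>
      hs (sub_eq_zero.1 (Unitization.inr_injective (R := ℂ) (by simpa using h))).symm
    refine ⟨idx_zero ((zr_self k1 k2 k3).map (upEq A).symm), ?_⟩
    rintro X _ _ _ ⟨φ⟩
    let _ := CStarAlgebra.spectralOrder (Unitization ℂ B)
    have := CStarAlgebra.spectralOrderedRing (Unitization ℂ B)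
    exact idx_zero (zr_pre ((upEq A).symm.trans φ)
      ((Unitization.isometry_inr (𝕜 := ℂ) (A := B)).isClosedEmbedding.isClosedMap _ hA) k1 k2 k3)

end Pool.Agent.Results.MP_64e6b8_an.RealIndex
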